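import Pool.Agent.Helper41.LF.GoalsA

/-!
# Packet LF-TUP: every rational subspace has a tuple of minimal weight
-/

set_option autoImplicit false

namespace Pool.Agent.Helper41.LF

theorem tup_int_mul {n : ℕ} (v : Fin n → ℚ) :
    ∃ (m : ℕ) (w : Fin n → ℤ), m ≠ 0 ∧ toQ w = (m : ℚ) • v := by
  refine ⟨∏ i, (v i).den, fun i => (v i).num * ∏ j ∈ Finset.univ.erase i, ((v j).den : ℤ), ?_, ?_⟩
  · exact Finset.prod_ne_zero_iff.2 fun i _ => (v i).den_ne_zero
  · funext i
    have h1 : (∏ j, (v j).den) = (v i).den * ∏ j ∈ Finset.univ.erase i, (v j).den :=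
      (Finset.mul_prod_erase Finset.univ (fun j => (v j).den) (Finset.mem_univ i)).symm
    have h2 : ((v i).den : ℚ) * v i = (v i).num := by
      rw [mul_comm]; exact Rat.mul_den_eq_num (v i)
    simp only [toQ, Pi.smul_apply, smul_eq_mul]
    rw [h1]
    push_cast
    rw [← h2]
    ring

theorem thm_TUP : S_TUP := by
  intro d W
  classical
  have hex : ∃ β : Fin (Module.finrank ℚ W) → Fin (d + 1) → ℤ, IsTup W β := by
    let b := Module.finBasis ℚ W
    choose m w hm hw using fun k => tup_int_mul ((b k : W) : Fin (d + 1) → ℚ)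
    let u : Fin (Module.finrank ℚ W) → ℚˣ := fun k => Units.mk0 (m k : ℚ) (by exact_mod_cast hm k)
    let b' := b.unitsSMul u
    have hb' : ∀ k, ((b' k : W) : Fin (d + 1) → ℚ) = toQ (w k) := by
      intro k
      rw [hw k]
      simp only [b', Module.Basis.unitsSMul_apply]
      rfl
    have hfun : (fun k => toQ (w k)) = W.subtype ∘ b' := by
      funext k
      rw [← hb' k]; rfl
    refine ⟨w, ?_, ?_⟩
    · rw [hfun]
      exact b'.linearIndependent.map' W.subtype (Submodule.ker_subtype W)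
    · rw [hfun, Set.range_comp, Submodule.span_image, b'.span_eq, Submodule.map_subtype_top]
  have hne : ∃ N : ℕ, ∃ β : Fin (Module.finrank ℚ W) → Fin (d + 1) → ℤ, IsTup W β ∧ wt β = N := by
    obtain ⟨β, hβ⟩ := hex
    exact ⟨wt β, β, hβ, rfl⟩
  obtain ⟨β, hβ, hN⟩ := Nat.find_spec hne
  refine ⟨β, hβ, fun β' hβ' => ?_⟩
  rw [hN]
  exact Nat.find_min' hne ⟨β', hβ', rfl⟩

end Pool.Agent.Helper41.LF
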