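import Pool.Agent.Helper61.LF.GoalsN

/-! # LF, packet LEV: noetherian modules, levels, pigeonhole -/

set_option autoImplicit false

namespace Pool.Agent.Helper83.LF.LEV

open Pool.Agent.Helper61.LF

universe u

section

variable {A : Type u} [Ring A] {P : Type u} [AddCommGroup P] [Module A P]

/-- The submodules `E m`. -/
noncomputable def Es (τ : P →ₗ[A] P) (E0 : Submodule A P) : ℕ → Submodule A P
  | 0 => E0
  | m + 1 => Es τ E0 m ⊔ E0.map (τ ^ (m + 1))

theorem Es_mono (τ : P →ₗ[A] P) (E0 : Submodule A P) : Monotone (Es τ E0) :=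
  monotone_nat_of_le_succ fun _ => le_sup_left

theorem Es_fg (τ : P →ₗ[A] P) {E0 : Submodule A P} (h : E0.FG) (m : ℕ) : (Es τ E0 m).FG := by
  induction m with
  | zero => exact h
  | succ m ih => exact ih.sup (h.map _)

theorem pow_mem (τ : P →ₗ[A] P) (E0 : Submodule A P) {x : P} (hx : x ∈ E0) (n : ℕ) :
    (τ ^ n) x ∈ Es τ E0 n := by
  cases n with
  | zero => simpa [Es] using hx
  | succ n => exact (le_sup_right : _ ≤ Es τ E0 (n + 1)) (Submodule.mem_map_of_mem hx)

theorem Es_map (τ : P →ₗ[A] P) (E0 : Submodule A P) (m : ℕ) {x : P} (hx : x ∈ Es τ E0 m) :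
    τ x ∈ Es τ E0 (m + 1) := by
  induction m generalizing x with
  | zero =>
    have h := pow_mem τ E0 (x := x) hx 1
    rwa [pow_one] at h
  | succ m ih =>
    obtain ⟨y, hy, w, hw, rfl⟩ := Submodule.mem_sup.1 hx
    obtain ⟨v, hv, rfl⟩ := hw
    rw [map_add]
    refine Submodule.add_mem _ (Es_mono τ E0 (by omega) (ih hy)) ?_
    have h := pow_mem τ E0 hv (m + 1 + 1)
    rw [pow_succ' τ (m + 1)] at h
    exact h

end

/-- LEV -/
theorem t : S_LEV.{u} := by
  intro A _ _ P _ _ τ b z r s R hR hC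
  by_contra hfin
  obtain ⟨E0, hE0d⟩ : ∃ E0 : Submodule A P, E0 = R ⊔ Submodule.span A (b '' Set.Iio r) ⊔
    Submodule.span A (z '' Set.Iio s) := ⟨_, rfl⟩
  have hE0 : E0.FG := by
    rw [hE0d]
    exact (hR.sup (Submodule.fg_span ((Set.finite_Iio r).image b))).sup
      (Submodule.fg_span ((Set.finite_Iio s).image z))
  have hRE : R ≤ E0 := by
    rw [hE0d]
    exact le_sup_left.trans le_sup_left
  have hbE : ∀ j, j < r → b j ∈ E0 := by
    intro j hj
    rw [hE0d]
    exact (le_sup_right.trans le_sup_left : Submodule.span A (b '' Set.Iio r) ≤ _)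
      (Submodule.subset_span ⟨j, hj, rfl⟩)
  have hzE : ∀ i, i < s → z i ∈ E0 := by
    intro i hi
    rw [hE0d]
    exact (le_sup_right : Submodule.span A (z '' Set.Iio s) ≤ _)
      (Submodule.subset_span ⟨i, hi, rfl⟩)
  have hmono := Es_mono τ E0
  have h0 : ∀ m, E0 ≤ Es τ E0 m := fun m => hmono (Nat.zero_le m)
  -- strict
  have hne : ∀ m, ∃ x, x ∈ Es τ E0 (m + 1) ∧ x ∉ Es τ E0 m := by
    intro m
    by_contra hcon
    push Not at hcon
    have hst : ∀ x ∈ Es τ E0 m, τ x ∈ Es τ E0 m := fun x hx => hcon _ (Es_map τ E0 m hx)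
    have hpow : ∀ n, ∀ x ∈ Es τ E0 m, (τ ^ n) x ∈ Es τ E0 m := by
      intro n
      induction n with
      | zero => intro x hx; simpa using hx
      | succ n ih =>
        intro x hx
        rw [pow_succ' τ n]
        exact hst _ (ih x hx)
    have htop : Es τ E0 m = ⊤ := by
      rw [eq_top_iff]
      intro p _
      rcases hC p with ⟨j, hj, n, hn⟩ | ⟨i, hi, hn⟩
      · have h1 := hpow n _ (h0 m (hbE j hj))
        have h2 := Submodule.add_mem _ (h0 m (hRE hn)) h1
        rwa [sub_add_cancel] at h2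
      · have h2 := Submodule.add_mem _ (h0 m (hRE hn)) (h0 m (hzE i hi))
        rwa [sub_add_cancel] at h2
    exact hfin ⟨htop ▸ Es_fg τ hE0 m⟩
  choose x hx1 hx2 using hne
  -- stabilisation
  have hN : IsNoetherian A E0 := isNoetherian_of_fg_of_noetherian E0 hE0
  let S : ℕ →o Submodule A E0 :=
    ⟨fun m => ((Es τ E0 m).comap (τ ^ (m + 1))).comap E0.subtype,
      monotone_nat_of_le_succ fun m w hw => by
        simp only [Submodule.mem_comap] at hw ⊢
        have h := Es_map τ E0 m hw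
        rw [pow_succ' τ (m + 1)]
        exact h⟩
  obtain ⟨m0, hm0⟩ := (monotone_stabilizes_iff_noetherian.2 hN) S
  have hS : ∀ k, m0 ≤ k → ∀ w ∈ E0, (τ ^ (k + 1 + 1)) w ∈ Es τ E0 (k + 1) →
      (τ ^ (k + 1)) w ∈ Es τ E0 k := by
    intro k hk w hw h
    have e : S (k + 1) = S k := by
      rw [← hm0 (k + 1) (by omega), ← hm0 k hk]
    have h1 : (⟨w, hw⟩ : E0) ∈ S (k + 1) := h
    rw [e] at h1
    exact h1
  have hstar : ∀ k, m0 ≤ k → ∀ y, y ∈ Es τ E0 (k + 1) → τ y ∈ Es τ E0 (k + 1) →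
      y ∈ Es τ E0 k := by
    intro k hk y hy hτ
    obtain ⟨y', hy', w', hw', rfl⟩ := Submodule.mem_sup.1 hy
    obtain ⟨w, hw, rfl⟩ := hw'
    refine Submodule.add_mem _ hy' (hS k hk w hw ?_)
    rw [map_add] at hτ
    have h := Submodule.sub_mem _ hτ (Es_map τ E0 k hy')
    rw [add_sub_cancel_left] at h
    rw [pow_succ' τ (k + 1)]
    exact h
  have hlev : ∀ i k, m0 ≤ k → ∀ y, y ∈ Es τ E0 (k + 1) → y ∉ Es τ E0 k →
      (τ ^ i) y ∈ Es τ E0 (k + i + 1) ∧ (τ ^ i) y ∉ Es τ E0 (k + i) := by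
    intro i
    induction i with
    | zero => intro k _ y h1 h2; exact ⟨by simpa using h1, by simpa using h2⟩
    | succ i ih =>
      intro k hk y h1 h2
      obtain ⟨h3, h4⟩ := ih k hk y h1 h2
      rw [pow_succ' τ i]
      refine ⟨Es_map τ E0 _ h3, fun h5 => h4 ?_⟩
      exact hstar (k + i) (by omega) _ h3 h5
  have huniq : ∀ k, m0 ≤ k → ∀ y : P, ∀ n n', (τ ^ n) y ∈ Es τ E0 (k + 1) →
      (τ ^ n) y ∉ Es τ E0 k → (τ ^ n') y ∈ Es τ E0 (k + 1) → (τ ^ n') y ∉ Es τ E0 k →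
      ¬ n < n' := by
    intro k hk y n n' h1 h2 h3 h4 hlt
    obtain ⟨i, rfl⟩ : ∃ i, n' = i + 1 + n := ⟨n' - n - 1, by omega⟩
    have h5 := (hlev (i + 1) k hk _ h1 h2).2
    rw [pow_add τ (i + 1) n] at h3
    exact h5 (hmono (by omega) h3)
  -- the pigeonhole principle
  obtain ⟨K, hK⟩ : ∃ K, K = m0 + r + 1 := ⟨_, rfl⟩
  have hy1 : ∀ t : Fin (r + 1), x K + x t ∈ Es τ E0 (K + 1) := fun t =>
    Submodule.add_mem _ (hx1 K) (hmono (by have := t.2; omega) (hx1 t))
  have hy2 : ∀ t : Fin (r + 1), x K + x t ∉ Es τ E0 K := by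
    intro t h
    have h1 : x t ∈ Es τ E0 K := hmono (by have := t.2; omega) (hx1 t)
    have h2 := Submodule.sub_mem _ h h1
    rw [add_sub_cancel_right] at h2
    exact hx2 K h2
  have hch : ∀ t : Fin (r + 1), ∃ j : Fin r, ∃ n, x K + x t - (τ ^ n) (b j) ∈ R := by
    intro t
    rcases hC (x K + x t) with ⟨j, hj, n, hn⟩ | ⟨i, hi, hn⟩
    · exact ⟨⟨j, hj⟩, n, hn⟩
    · exfalso
      have h2 := Submodule.add_mem _ (h0 K (hRE hn)) (h0 K (hzE i hi))
      rw [sub_add_cancel] at h2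
      exact hy2 t h2
  choose j n hn using hch
  obtain ⟨t, t', htt, hj⟩ := Fintype.exists_ne_map_eq_of_card_lt j (by simp)
  have hl1 : ∀ t, (τ ^ n t) (b (j t)) ∈ Es τ E0 (K + 1) := by
    intro t
    have h2 := Submodule.sub_mem _ (hy1 t) (h0 (K + 1) (hRE (hn t)))
    rwa [sub_sub_cancel] at h2
  have hl2 : ∀ t, (τ ^ n t) (b (j t)) ∉ Es τ E0 K := by
    intro t h
    have h2 := Submodule.add_mem _ (h0 K (hRE (hn t))) h
    rw [sub_add_cancel] at h2
    exact hy2 t h2
  have hnn : n t = n t' := by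
    have a1 := hl1 t
    have a2 := hl2 t
    rw [hj] at a1 a2
    have b1 := huniq K (by omega) _ _ _ a1 a2 (hl1 t') (hl2 t')
    have b2 := huniq K (by omega) _ _ _ (hl1 t') (hl2 t') a1 a2
    omega
  have hmain : ∀ t t' : Fin (r + 1), t < t' → j t = j t' → n t = n t' → False := by
    intro t t' hlt hj hnn
    have h1 := Submodule.sub_mem _ (hn t') (hn t)
    rw [hj, hnn] at h1
    have e : x K + x t' - (τ ^ n t') (b (j t')) - (x K + x t - (τ ^ n t') (b (j t'))) =
        x t' - x t := by abel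
    rw [e] at h1
    have h2 : x t ∈ Es τ E0 t' := hmono (by have : (t : ℕ) < t' := hlt; omega) (hx1 t)
    have h3 := Submodule.add_mem _ (h0 t' (hRE h1)) h2
    rw [sub_add_cancel] at h3
    exact hx2 t' h3
  rcases lt_or_gt_of_ne htt with h | h
  · exact hmain t t' h hj hnn
  · exact hmain t' t h hj.symm hnn.symm

end Pool.Agent.Helper83.LF.LEV
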