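import Pool.Agent.Helper61.LF.Goals

/-! # LF, packet GAP: coefficients of polynomials -/

set_option autoImplicit false

open Polynomial

namespace Pool.Agent.Helper83.LF.GAP

open Pool.Agent.Helper61.LF

universe u

/-- GAP -/
theorem t : S_GAP.{u} := by
  intro k _ ε D hε
  obtain ⟨d, hd⟩ : ∃ d, d = ε.natDegree := ⟨_, rfl⟩
  have hlc : ε.coeff d ≠ 0 := by
    rw [hd]
    exact Polynomial.leadingCoeff_ne_zero.2 hε
  have hz : ∀ n, d < n → ε.coeff n = 0 := fun n hn =>
    Polynomial.coeff_eq_zero_of_natDegree_lt (by omega)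
  obtain ⟨L, hL⟩ : ∃ L, L = D + d + 1 := ⟨_, rfl⟩
  refine ⟨fun q => X ^ L + X ^ (L * (q + 2)), ?_⟩
  intro q q' hqq i A B hA hB heq
  have hAz : ∀ n, D < n → A.coeff n = 0 := fun n hn =>
    Polynomial.coeff_eq_zero_of_natDegree_lt (by omega)
  have hBz : ∀ n, D < n → B.coeff n = 0 := fun n hn =>
    Polynomial.coeff_eq_zero_of_natDegree_lt (by omega)
  have key : ∀ n, ((if L ≤ n then ε.coeff (n - L) else 0) +
      (if L * (q' + 2) ≤ n then ε.coeff (n - L * (q' + 2)) else 0)) -
      (if i ≤ n then ((if L ≤ n - i then ε.coeff (n - i - L) else 0) +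
        (if L * (q + 2) ≤ n - i then ε.coeff (n - i - L * (q + 2)) else 0)) else 0) =
      A.coeff n + (if i ≤ n then B.coeff (n - i) else 0) := by
    intro n
    have h := congrArg (fun p : k[X] => p.coeff n) heq
    simp only [add_mul, coeff_sub, coeff_add, coeff_X_pow_mul'] at h
    exact h
  obtain ⟨a, ha⟩ : ∃ a, a = L * (q + 2) := ⟨_, rfl⟩
  obtain ⟨a', ha'⟩ : ∃ a', a' = L * (q' + 2) := ⟨_, rfl⟩
  simp only [← ha, ← ha'] at key
  have h2 : 2 * L ≤ a := by rw [ha]; nlinarith
  have h2' : 2 * L ≤ a' := by rw [ha']; nlinarith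
  have hor : a + L ≤ a' ∨ a' + L ≤ a := by
    rcases lt_or_gt_of_ne hqq with h | h
    · left
      have h3 : L * (q + 2 + 1) ≤ L * (q' + 2) := Nat.mul_le_mul_left L (by omega)
      rw [mul_add L (q + 2) 1, mul_one] at h3
      omega
    · right
      have h3 : L * (q' + 2 + 1) ≤ L * (q + 2) := Nat.mul_le_mul_left L (by omega)
      rw [mul_add L (q' + 2) 1, mul_one] at h3
      omega
  rcases lt_trichotomy (a' + d) (i + a + d) with h | h | h
  · have h1 := key (i + a + d)
    rw [if_pos (by omega : L ≤ i + a + d), hz (i + a + d - L) (by omega),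
      if_pos (by omega : a' ≤ i + a + d), hz (i + a + d - a') (by omega),
      if_pos (by omega : i ≤ i + a + d), if_pos (by omega : L ≤ i + a + d - i),
      hz (i + a + d - i - L) (by omega), if_pos (by omega : a ≤ i + a + d - i),
      (by omega : i + a + d - i - a = d), hAz _ (by omega),
      if_pos (by omega : i ≤ i + a + d), hBz _ (by omega)] at h1
    apply hlc
    simpa using h1
  · have h1 := key (i + L + d)
    have hi : L ≤ i := by omega
    rw [if_pos (by omega : L ≤ i + L + d), hz (i + L + d - L) (by omega),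
      if_neg (by omega : ¬ a' ≤ i + L + d),
      if_pos (by omega : i ≤ i + L + d), if_pos (by omega : L ≤ i + L + d - i),
      (by omega : i + L + d - i - L = d), if_neg (by omega : ¬ a ≤ i + L + d - i),
      hAz _ (by omega), if_pos (by omega : i ≤ i + L + d), hBz _ (by omega)] at h1
    apply hlc
    simpa using h1
  · have h1 := key (a' + d)
    rw [if_pos (by omega : L ≤ a' + d), hz (a' + d - L) (by omega),
      if_pos (by omega : a' ≤ a' + d), (by omega : a' + d - a' = d),
      if_pos (by omega : i ≤ a' + d), if_pos (by omega : L ≤ a' + d - i),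
      hz (a' + d - i - L) (by omega), if_pos (by omega : a ≤ a' + d - i),
      hz (a' + d - i - a) (by omega), hAz _ (by omega),
      if_pos (by omega : i ≤ a' + d), hBz _ (by omega)] at h1
    apply hlc
    simpa using h1

end Pool.Agent.Helper83.LF.GAP
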